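import Pool.Agent.Q227.LB.Main

/-!
# Unanimity lobbying with a super-constant quota is not in P, assuming ETH

If unanimity lobbying with the quota `z` is in `P`, then a clique of constant size in a graph
whose vertices are the partial assignments of three groups of variables is found in time polynomial
in the size of the graph, with an exponent which does not depend on the size of the clique.
-/

set_option autoImplicit false

namespace Pool.Agent.Results.MP_8eff38_lc.NotInP

open Pool.Agent.NPC Pool.Agent.Q227.LB

/-- (1) Assume the exponential time hypothesis. If `min (z m) (m - z m)` tends to infinity, then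
unanimity lobbying with the quota `z` is not in `P`. (2) Assume the almost everywhere form of the
exponential time hypothesis. Then unanimity lobbying with the quota `z` is not in `P` whenever
`min (z m) (m - z m)` is unbounded. The function `z` is arbitrary (it need not be computable). -/
theorem result :
    (ETH → ∀ z : ℕ → ℕ, (∀ m, z m ≤ m) →
      Filter.Tendsto (fun m => min (z m) (m - z m)) Filter.atTop Filter.atTop → ¬ InPoly z) ∧
    (ETHae → ∀ z : ℕ → ℕ, (∀ m, z m ≤ m) →
      (¬ ∃ C, ∀ m, min (z m) (m - z m) ≤ C) → ¬ InPoly z) := by
  constructor
  · intro hE z hz hlim
    refine main_tendsto hz (fun c => ?_) hE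
    exact Filter.tendsto_atTop_atTop.1 hlim c
  · intro hE z hz hlim
    refine main_unbounded hz (fun c => ?_) hE
    by_contra hcon
    push Not at hcon
    exact hlim ⟨c, hcon⟩

end Pool.Agent.Results.MP_8eff38_lc.NotInP
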